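import Mathlib
import Pool.Agent.Run7.h413.DN.ExactTri

/-!
# Exact triangle: deep networks whose gates share real values

The input consists of the `3 n ^ 2` weights of a complete tripartite graph with three parts of `n`
vertices; the weights are integers between `- (n + 1)` and `n + 1` (`InRange`). Is there a triangle
of weight zero (`zeroTri`)? The items of the input are the single weights.

*Networks* (`Net`). The nodes carry real numbers of unlimited precision, and **the value of a node
may be used by any number of other nodes**. The gates are leaves (arbitrary real functions of one
item, or of `w` words with `n ^ c` values, each of which is an arbitrary function of one item),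
weighted sums of any number of inputs (`lin`), products of two inputs (`mul`), maxima of any number
of inputs (`max`), and symmetric gates (`sym`), whose value is an arbitrary function of the number
of the positive inputs. So deep networks of rectified linear units, threshold gates, minima, maxima
and products are included. A network accepts if the value of the output node is positive. The
inputs of a gate have smaller levels; the depth is at most `d` if all levels are at most `d`
(`DepthLE`).

*Cost.* For each of the `n ^ 2` weights of the edges between the first two parts we count the
leaves which see it, and the wires which leave a node that depends on it (`traffic`). The cost is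
the sum of these numbers. So a wire pays the number of these `n ^ 2` weights on which its source
depends; what depends on the other weights only is free.

We show that random networks of depth at most `d` with error probability at most `1 / 3` have cost
`s` with `n ^ 3 ≤ 600 (w c log₂ n + d (d + log₂ n)) s`. So the cost is `n ^ (3 - o (1))` for all
depths `d = n ^ o (1)`.

Proof. The weight of an edge `i j` can ask for each of `n` bits which are encoded in the weights of
the edges between the second and the third part. Fix all other items (Nechiporuk's method). If `r`
leaves and wires depend on the weight, then the other items enter by at most `2 r` real parameters: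
the rest of a weighted sum, the other factor, the maximum of the other inputs, or the possible
values of a symmetric gate. If the values of the nodes of level less than `t` are polynomials of
degree at most `2 ^ t` in the parameters, then Warren's theorem bounds the number of the results of
all comparisons at the next level. In this way one passes through the levels (as in the bounds of
Bartlett, Maiorov and Meir for the VC dimension of networks), and there are at most `(q ^ (w - 1)
(n ^ O (1) 2 ^ d) ^ (2 (d + 2))) ^ r` functions of the weight (`Run7.h413.DN.Core`,
`Run7.h413.DN.Sub`).
-/

set_option autoImplicit false

namespace Pool.Agent.Results.MP_62fbe0_lc.DeepNetworks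

open Pool.Agent.TH697.Form (IsProb)
open Pool.Agent.TH697.Row (ApproximatesOn)
open Pool.Agent.Y638.RF.ZT (InRange zeroTri)
open Run7.h413.DN (Net)
open Run7.h413.DN.ExactTri (edges)

theorem result : ∀ n c w d : ℕ, 2048 ≤ n → 1 ≤ c → 1 ≤ w → 1 ≤ d →
    ∀ (Ω : Type) [Fintype Ω] (μ : Ω → ℝ), IsProb μ →
      ∀ (s : ℕ) (C : Ω → Net (Fin 3 × Fin n × Fin n) (fun _ => ℤ) w (n ^ c)),
        (∀ ω, (C ω).DepthLE d) → (∀ ω, (C ω).cost (edges n) ≤ s) →
        ApproximatesOn μ (fun ω => (C ω).eval) InRange zeroTri →
        (n : ℝ) ^ 3 ≤ 600 * (w * c * Real.logb 2 n + d * (d + Real.logb 2 n)) * s :=
  fun _ _ _ _ hn hc hw hd _ _ μ hμ s C hdep hs hC =>
    Run7.h413.DN.ExactTri.bound hn hc hw hd μ hμ s C hdep hs hC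

end Pool.Agent.Results.MP_62fbe0_lc.DeepNetworks
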