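import Mathlib
import Pool.Agent.Run7.h412.FC.ZT

/-!
# Exact triangle: circuits over formulas of bilinear maps over a finite field

The input consists of the `3 n ^ 2` weights of a complete tripartite graph with three parts of `n`
vertices; the weights are integers between `- (n + 1)` and `n + 1` (`InRange`). Is there a triangle of
weight zero (`zeroTri`)? The items of the input are the single weights.

*Formulas* (`Fml`). The wires carry vectors of dimension `d` over a finite field `K`. The leaves are
vectors, or matrices which are applied to a vector (`act`), which depend in an arbitrary way on one
item, or on `w` words of length `c log₂ n`, each of which is an arbitrary function of one item. The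
gates are sums, arbitrary bilinear maps of two vectors (`bil`), arbitrary functions of the values of
`e` linear forms (`fn`), and gates `sym` of any fan-in whose value is an arbitrary function of the
number of the inputs for which a linear form is not zero. So products of matrices of order `d` over
`K` (for `K = ZMod 2` in particular branching programs of width `d` and their parity versions), and
the contractions of tensor networks over `K` whose intermediate tensors have at most `d` entries, are
formulas of this kind.

*Circuits* (`Circuit`) compute shared bits; each bit is the result of a branching program whose tests
are formulas, and the leaves may also read the bits computed before. A leaf which reads an item pays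
its price: one for each of the `n ^ 2` weights between the first two parts (`first n`), nothing for the other
weights, and for a shared bit the number of those of the first `n ^ 2` weights on which the bit depends. The cost is the sum of the prices of all leaves, plus the number of inner nodes of the
branching programs, plus the number of wires which lead to gates `sym`. All other gates and constants
are free.

We show that random circuits with error probability at most `1 / 3` have cost `s` with
`n ^ 3 ≤ 330 (w c log₂ n + d (d + |K| ^ e) log₂ |K|) s`. So for constant `w`, `c`, `K`, `e` the cost is of the
order `n ^ 3 / (log n + d ^ 2)`: vectors of dimension `O (√(log n))` do not help (up to constant factors),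
and an algorithm of this kind with only `n ^ (3 - ε)` readings computes with vectors of dimension
`n ^ (ε / 2)` (up to logarithmic factors), or with shared bits which depend on many of the weights.

Proof. The weight of an edge between the first two parts can ask for each of `n` bits which are
encoded in the weights of the edges between the second and the third part (helper638). We count the functions of this item which arise when the other items are fixed: if
`r` leaves see it or bits which depend on it, there are `O (r)` places at which other parts enter, and
the function of the vector at such a place is an affine map or a function of `e` linear forms; the
values of the shared bits are treated one after the other (`Pool.Agent.N452.FF.Core`,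
`Pool.Agent.N452.FF.Prog`; Nechiporuk's method).
-/

set_option autoImplicit false

namespace Pool.Agent.Results.MP_62fbe0_lc.FieldCircuits

open Pool.Agent.TH697.Form (IsProb)
open Pool.Agent.TH697.Row (ApproximatesOn)
open Pool.Agent.Y638.RF.ZT (InRange zeroTri first)
open Pool.Agent.N452.FF (Circuit)

theorem result : ∀ (K : Type) [Field K] [Fintype K] [DecidableEq K] (n c w d e : ℕ),
    100 ≤ n → 1 ≤ c → 1 ≤ w → 1 ≤ e →
    ∀ (Ω : Type) [Fintype Ω] (μ : Ω → ℝ), IsProb μ →
      ∀ (s : ℕ) (C : Ω → Circuit K (Fin 3 × Fin n × Fin n) (fun _ => ℤ) w (n ^ c) d e),
        (∀ ω, (C ω).circ.cost (first n) ≤ s) →
        ApproximatesOn μ (fun ω => (C ω).eval) InRange zeroTri →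
        (n : ℝ) ^ 3 ≤ 330 * (w * c * Real.logb 2 n +
          d * (d + (Fintype.card K : ℝ) ^ e) * Real.logb 2 (Fintype.card K)) * s :=
  fun _ _ _ _ _ _ _ _ _ hn hc hw he _ _ μ hμ s C hs hC =>
    Pool.Agent.Run7.h412.FC.ZT.bound hn hc hw he μ hμ s C hs hC

end Pool.Agent.Results.MP_62fbe0_lc.FieldCircuits
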