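import Mathlib
import Pool.Agent.Run7.h413.MX.ExactTri

/-!
# Exact triangle: circuits over real formulas with maximum gates

The input consists of the `3 n ^ 2` weights of a complete tripartite graph with three parts of `n`
vertices; the weights are integers between `- (n + 1)` and `n + 1` (`InRange`). Is there a triangle
of weight zero (`zeroTri`)? The items of the input are the single weights.

*Formulas* (`Fml`). The wires carry real numbers of unlimited precision. The leaves are arbitrary
real functions of one item, or of `w` words with `n ^ c` values, each of which is an arbitrary
function of one item. The gates are sums, products, **maxima**, tests of the sign with two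
arbitrary results (`test`), and gates `sym` of any fan-in whose value is an arbitrary function of
the number of the positive inputs. Since constants are free, minima, rectified linear units `max
(x, 0)` and clipping are included: `min (x, y) = - max (- x, - y)`.

*Circuits* (`Circuit`) compute shared bits; each bit is the result of a branching program whose
tests are formulas, and the leaves may also read the bits computed before. Only the `n ^ 2` weights
of the edges between the first two parts have to be paid: a leaf which reads such a weight pays
one, a reading of another weight is free, and a reading of a shared bit costs the number of the `n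
^ 2` weights on which the bit depends. The cost is the sum of these prices for all leaves, plus the
number of inner nodes of the branching programs, plus the number of wires which lead to gates
`sym`. All other gates and constants are free.

(1) Random circuits with error probability at most `1 / 3` have cost `s ≥ n ^ 3 / (4000 (w c + log₂
n) log₂ n)`.
(2) Exhaustive search is a circuit without shared bits, with `w = 1` and of cost at most `6 n ^ 3 +
1`.

Proof. The weight of an edge `i j` can ask for each of `n` bits which are encoded in the weights of
the edges between the second and the third part. We count the functions of this weight which arise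
when the other items are fixed (Nechiporuk's method). Without maxima a formula with `r` readings of
the weight is, on each sign pattern, a polynomial in `O (r)` parameters, and Warren's theorem
bounds the number of sign patterns. A maximum of two subformulas with `r'` and `r''` readings
multiplies the numbers of their pieces, and this argument gives nothing. Here only the pieces of
the lighter input of each gate are refined by means of Warren's theorem; a place is then refined at
most `log₂ s` times, and the number of functions is `n ^ (O (r log s))` (`Run7.h413.MX.Cov`,
`Run7.h413.MX.Core`). The values of the shared bits are treated one after the other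
(`Run7.h413.MX.Prog`).
-/

set_option autoImplicit false

namespace Pool.Agent.Results.MP_62fbe0_lc.MaximumGates

open Pool.Agent.TH697.Form (IsProb)
open Pool.Agent.TH697.Row (ApproximatesOn)
open Pool.Agent.Y638.RF.ZT (InRange zeroTri)
open Run7.h413.MX (Circuit)
open Run7.h413.MX.ExactTri (edges)

theorem result :
    (∀ n c w : ℕ, 2048 ≤ n → 1 ≤ c → 1 ≤ w →
      ∀ (Ω : Type) [Fintype Ω] (μ : Ω → ℝ), IsProb μ →
        ∀ (s : ℕ) (C : Ω → Circuit (Fin 3 × Fin n × Fin n) (fun _ => ℤ) w (n ^ c)),
          (∀ ω, (C ω).circ.cost (edges n) ≤ s) →
          ApproximatesOn μ (fun ω => (C ω).eval) InRange zeroTri →
          (n : ℝ) ^ 3 ≤ 4000 * (w * c + Real.logb 2 n) * Real.logb 2 n * s) ∧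
    (∀ n q : ℕ, ∃ C : Circuit (Fin 3 × Fin n × Fin n) (fun _ => ℤ) 1 q, C.bits = 0 ∧
      C.circ.cost (edges n) ≤ 6 * n ^ 3 + 1 ∧ ∀ x, C.eval x = zeroTri x) :=
  ⟨fun _ _ _ hn hc hw _ _ μ hμ s C hs hC =>
    Run7.h413.MX.ExactTri.bound hn hc hw μ hμ s C hs hC,
    fun n q => Run7.h413.MX.ExactTri.upper n q⟩

end Pool.Agent.Results.MP_62fbe0_lc.MaximumGates
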