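import Mathlib
import Pool.Agent.Run7.h412.SP.ZT

/-!
# Exact triangle: span programs over finite fields which test real formulas

The input consists of the `3 n ^ 2` weights of a complete tripartite graph with three parts of `n`
vertices; the weights are integers between `- (n + 1)` and `n + 1` (`InRange`). Is there a triangle of
weight zero (`zeroTri`)? The items of the input are the single weights.

A real formula (`Fml`) is built from real constants, arbitrary real functions of one item, and
arbitrary real functions of `w` words of length `c log₂ n`, where each word is an arbitrary
function of one item, by sums, products, sign tests `pos`, and gates `sym` of any fan-in whose value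
is an arbitrary real function of the number of positive inputs. A span program (`SpanProgram`,
Karchmer and Wigderson 1993) over a finite field `K` has vectors of a space `K ^ dim`, each of which
is guarded by a real formula, a subspace of free vectors, and a target vector; it accepts the input if
the target is a linear combination of free vectors and of vectors whose guards accept the input. The
size is the number of the guarded vectors plus the sizes of the guards (leaves, and wires to gates
`sym`); the dimension and the free vectors are not counted. Undirected contact schemes over all
fields, and the parity and modular versions of branching programs (is the number of accepting paths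
nonzero in `K`) are span programs.

We show that random span programs (first the random choice) of size at most `s` which accept the
graphs with a triangle of weight zero, or which accept the graphs without such a triangle, with error
probability at most `1 / 3`, need `n ^ 3 ≤ 4000 w (√(log₂ |K| n) + 53 c w log₂ n) s`, that is, size of
the order `n ^ (5 / 2)` for every fixed field, for an input of `3 n ^ 2` numbers.

Proof. The weight of an edge between the first two parts can ask for each of `n` bits which are
encoded in the weights of the edges between the second and the third part. If `r` leaves
see an item, then for fixed other items the coefficients of the live vectors which complete a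
combination form an affine subspace of `K ^ r` or the empty set, so there are at most
`2 |K| ^ (r ^ 2 + r)` possibilities, and the guards take `2 ^ O (r log n)` different functions of the
item (Warren's bound, `Pool.Agent.Y638.RF.Core`); the rest is Nechiporuk's method with random
strings (`Pool.Agent.Run7.h412.SP.Core`, `Pool.Agent.Run7.h412.SP.Lower`).
-/

set_option autoImplicit false

namespace Pool.Agent.Results.MP_62fbe0_lc.SpanPrograms

open Pool.Agent.TH697.Form (IsProb)
open Pool.Agent.TH697.Row (ApproximatesOn)
open Pool.Agent.Y638.RF.ZT (InRange zeroTri)
open Pool.Agent.Run7.h412.SP (SpanProgram)

theorem result : ∀ (K : Type) [Field K] [Fintype K] (n c w : ℕ), 100 ≤ n → 1 ≤ c → 1 ≤ w →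
    ∀ (Ω : Type) [Fintype Ω] (μ : Ω → ℝ), IsProb μ →
      ∀ (s : ℕ) (N : Ω → SpanProgram K (Fin 3 × Fin n × Fin n) (fun _ => ℤ) w (n ^ c)),
        (∀ ω, (N ω).size ≤ s) →
        (ApproximatesOn μ (fun ω => (N ω).eval) InRange zeroTri ∨
          ApproximatesOn μ (fun ω x => !(N ω).eval x) InRange zeroTri) →
        (n : ℝ) ^ 3 ≤ 4000 * w * (√(Real.logb 2 (Fintype.card K) * n) +
          53 * c * w * Real.logb 2 n) * s :=
  fun _ _ _ _ _ _ hn hc hw _ _ μ hμ s N hs hN =>
    Pool.Agent.Run7.h412.SP.ZT.bound hn hc hw μ hμ s N hs hN

end Pool.Agent.Results.MP_62fbe0_lc.SpanPrograms
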